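import Mathlib
import Pool.Agent.H32R3.PV.Main

/-!
# MP_0234e1_an, Q1: the asymptotic `p`-variance bound holds for every `p ≥ 1`

For a complex polynomial `F` of degree `n ≥ 2` let
`σ_p(F) = min_c ((1/n) ∑ |z_k - c|^p)^(1/p)` be the `p`-variance of its zeros.  We prove that
there are constants `C n ≥ 1`, independent of `p`, with `C n → 1`, such that for every `p ≥ 1`,
every polynomial `F` of degree `n ≥ 2` and every zero `z` of `F` there is a critical point `w`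
with `|z - w| ≤ C n * σ_p(F)`; i.e. `h(F, F') ≤ C n * σ_p(F)`.
-/

open Filter Topology

namespace Pool.Agent.Results.MP_0234e1_an.AsymptoticVariance

/-- The `p`-variance `σ_p(F) = min_c ((1/n) ∑_k |z_k - c|^p)^(1/p)` of the zeros `z_k` of `F`
(listed with multiplicity), `n` the degree of `F`. -/
noncomputable def pVariance (p : ℝ) (F : Polynomial ℂ) : ℝ :=
  ⨅ c : ℂ, ((F.roots.map fun z => ‖z - c‖ ^ p).sum / (F.natDegree : ℝ)) ^ (1 / p)

/-- There are constants `C n ≥ 1` with `C n → 1` (more precisely `C n ≤ 1 + 2^29 n^(-1/6)`),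
independent of `p`, such that for every `p ≥ 1`, every `n ≥ 2` and every polynomial `F` of
degree `n`, each zero `z` of `F` has a critical point `w` of `F` with `|z - w| ≤ C n * σ_p(F)`. -/
theorem result :
    ∃ C : ℕ → ℝ, (∀ n, 1 ≤ C n) ∧ Tendsto C atTop (𝓝 1) ∧
      (∀ n : ℕ, 1 ≤ n → C n ≤ 1 + 2 ^ 29 * (n : ℝ) ^ (-(1 / 6) : ℝ)) ∧
      ∀ p : ℝ, 1 ≤ p → ∀ n : ℕ, 2 ≤ n → ∀ F : Polynomial ℂ, F.natDegree = n →
        ∀ z : ℂ, F.IsRoot z → ∃ w : ℂ, F.derivative.IsRoot w ∧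
          ‖z - w‖ ≤ C n * pVariance p F := by
  refine ⟨fun n => 1 + 2 ^ 29 * (n : ℝ) ^ (-(1 / 6) : ℝ), fun n => ?_, ?_, fun n _ => le_rfl, ?_⟩
  · have : 0 ≤ (n : ℝ) ^ (-(1 / 6) : ℝ) := Real.rpow_nonneg (Nat.cast_nonneg n) _
    linarith
  · have h1 : Tendsto (fun n : ℕ => (n : ℝ) ^ (-(1 / 6) : ℝ)) atTop (𝓝 0) :=
      (tendsto_rpow_neg_atTop (by norm_num : (0:ℝ) < 1 / 6)).comp tendsto_natCast_atTop_atTop
    have h2 := (h1.const_mul (2 ^ 29 : ℝ)).const_add 1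
    simpa using h2
  · rintro p hp n hn F rfl z hz
    obtain ⟨w, hw, hle⟩ := Pool.Agent.H32R3.PV.dist_bound hn hz
    refine ⟨w, hw, ?_⟩
    have ht : 0 ≤ (F.natDegree : ℝ) ^ (-(1 / 6) : ℝ) := Real.rpow_nonneg (Nat.cast_nonneg _) _
    set C : ℝ := 1 + 2 ^ 29 * (F.natDegree : ℝ) ^ (-(1 / 6) : ℝ) with hC
    have hC0 : 0 < C := by linarith
    have h3 : ‖z - w‖ / C ≤ pVariance p F := by
      refine le_ciInf fun c => ?_
      rw [div_le_iff₀' hC0]
      refine (hle c).trans ?_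
      exact mul_le_mul_of_nonneg_left
        (Pool.Agent.H32R3.PV.mean_le (by omega) hp c) hC0.le
    rwa [div_le_iff₀' hC0] at h3

end Pool.Agent.Results.MP_0234e1_an.AsymptoticVariance
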